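import Pool.Agent.Helper55_PB.Mid

/-!
# Iterated differences of the defect: HOM, PERM, PROJ, NONNEG, ZERO, SUM
-/

open MeasureTheory Module Set
open scoped RealInnerProductSpace Pointwise Topology

namespace Pool.Agent.Helper28_PB

open Pool.Agent.Helper55_PB

section

variable {E : Type*} [NormedAddCommGroup E] [InnerProductSpace ℝ E] [FiniteDimensional ℝ E]
  [MeasurableSpace E] [BorelSpace E]

/-- compact, convex, nonempty -/
structure CC (K : Set E) : Prop where
  cpt : IsCompact K
  cvx : Convex ℝ K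
  ne : K.Nonempty

omit [FiniteDimensional ℝ E] [MeasurableSpace E] [BorelSpace E] in
theorem CC.add {K : Set E} (h : CC K) (a : E) : CC (K + segment ℝ (0 : E) a) :=
  ⟨h.cpt.add (isCompact_segment _ _), h.cvx.add (convex_segment _ _),
    h.ne.add ⟨0, left_mem_segment _ _ _⟩⟩

theorem defect_diff (K : Set E) (a w₁ w₂ : E) :
    defect (K + segment ℝ (0 : E) a) w₁ w₂ - defect K w₁ w₂ =
      segVol (K + segment ℝ (0 : E) w₁) a + segVol (K + segment ℝ (0 : E) w₂) a -
        segVol (K + segment ℝ (0 : E) (w₁ + w₂)) a - segVol K a := by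
  unfold defect segVol
  rw [add_right_comm K (segment ℝ 0 a) (segment ℝ 0 w₁),
    add_right_comm K (segment ℝ 0 a) (segment ℝ 0 w₂),
    add_right_comm K (segment ℝ 0 a) (segment ℝ 0 (w₁ + w₂))]
  ring

theorem del_diff_hom (l : List E) : ∀ (K : Set E), CC K → ∀ (t : ℝ) (a w₁ w₂ : E), 0 ≤ t →
    Del l (K + segment ℝ (0 : E) (t • a)) w₁ w₂ - Del l K w₁ w₂ =
      t * (Del l (K + segment ℝ (0 : E) a) w₁ w₂ - Del l K w₁ w₂) := by
  induction l with
  | nil =>
    intro K hK t a w₁ w₂ ht
    simp only [Del]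
    rw [defect_diff, defect_diff, segVol_smul (hK.add w₁).cpt (hK.add w₁).cvx ht,
      segVol_smul (hK.add w₂).cpt (hK.add w₂).cvx ht,
      segVol_smul (hK.add (w₁ + w₂)).cpt (hK.add (w₁ + w₂)).cvx ht,
      segVol_smul hK.cpt hK.cvx ht]
    ring
  | cons b l ih =>
    intro K hK t a w₁ w₂ ht
    simp only [Del]
    have h1 := ih (K + segment ℝ (0 : E) b) (hK.add b) t a w₁ w₂ ht
    have h2 := ih K hK t a w₁ w₂ ht
    rw [add_right_comm K (segment ℝ 0 (t • a)) (segment ℝ 0 b),
      add_right_comm K (segment ℝ 0 a) (segment ℝ 0 b)]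
    linarith

theorem del_hom {l : List E} {K : Set E} (hK : CC K) {t : ℝ} (a w₁ w₂ : E) (ht : 0 ≤ t) :
    Del (t • a :: l) K w₁ w₂ = t * Del (a :: l) K w₁ w₂ := del_diff_hom l K hK t a w₁ w₂ ht

/-- HOM -/
theorem hom : DelHomStmt := fun l K h1 h2 h3 t a w₁ w₂ ht => del_hom ⟨h1, h2, h3⟩ a w₁ w₂ ht

theorem del_perm {l l' : List E} (h : l.Perm l') : ∀ (K : Set E) (w₁ w₂ : E),
    Del l K w₁ w₂ = Del l' K w₁ w₂ := by
  induction h with
  | nil => intro K w₁ w₂; rfl
  | cons a _ ih =>
    intro K w₁ w₂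
    simp only [Del]
    rw [ih, ih]
  | swap a b l =>
    intro K w₁ w₂
    simp only [Del]
    rw [add_right_comm K (segment ℝ 0 a) (segment ℝ 0 b)]
    ring
  | trans _ _ ih1 ih2 =>
    intro K w₁ w₂
    rw [ih1, ih2]

/-- PERM -/
theorem perm : DelPermStmt := fun _ _ h => del_perm h

theorem image_add_segment {F : Type*} [NormedAddCommGroup F] [InnerProductSpace ℝ F]
    (π : E →L[ℝ] F) (K : Set E) (a : E) :
    π '' (K + segment ℝ (0 : E) a) = π '' K + segment ℝ (0 : F) (π a) := by
  rw [Set.image_add]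
  congr 1
  rw [segment_eq_image, segment_eq_image, Set.image_image]
  refine Set.image_congr fun t _ => ?_
  simp

theorem CC.image {F : Type*} [NormedAddCommGroup F] [InnerProductSpace ℝ F]
    [FiniteDimensional ℝ F] {K : Set E} (h : CC K) (π : E →L[ℝ] F) : CC (π '' K) :=
  ⟨h.cpt.image π.continuous, h.cvx.linear_image π.toLinearMap, h.ne.image _⟩

theorem del_proj (l : List E) : ∀ (K : Set E), CC K → ∀ (a w₁ w₂ : E), ‖a‖ = 1 →
    Del l (K + segment ℝ (0 : E) a) w₁ w₂ - Del l K w₁ w₂ =
      Del (l.map ((ℝ ∙ a)ᗮ.orthogonalProjectionOnto)) ((ℝ ∙ a)ᗮ.orthogonalProjectionOnto '' K)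
        ((ℝ ∙ a)ᗮ.orthogonalProjectionOnto w₁) ((ℝ ∙ a)ᗮ.orthogonalProjectionOnto w₂) := by
  induction l with
  | nil =>
    intro K hK a w₁ w₂ ha
    simp only [Del, List.map_nil]
    have key : ∀ M : Set E, CC M → segVol M a =
        (volume ((ℝ ∙ a)ᗮ.orthogonalProjectionOnto '' M)).toReal := by
      intro M hM
      have h := segVol_eq hM.cpt hM.cvx ha (zero_le_one)
      rw [one_smul, one_mul] at h
      exact h
    have hadd : (ℝ ∙ a)ᗮ.orthogonalProjectionOnto (w₁ + w₂) =
        (ℝ ∙ a)ᗮ.orthogonalProjectionOnto w₁ + (ℝ ∙ a)ᗮ.orthogonalProjectionOnto w₂ :=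
      map_add _ _ _
    rw [defect_diff, key _ (hK.add w₁), key _ (hK.add w₂), key _ (hK.add (w₁ + w₂)), key _ hK,
      image_add_segment, image_add_segment, image_add_segment, defect, segVol, segVol, segVol,
      hadd]
    ring
  | cons b l ih =>
    intro K hK a w₁ w₂ ha
    simp only [Del, List.map_cons]
    have h1 := ih (K + segment ℝ (0 : E) b) (hK.add b) a w₁ w₂ ha
    have h2 := ih K hK a w₁ w₂ ha
    rw [image_add_segment] at h1
    rw [add_right_comm K (segment ℝ 0 a) (segment ℝ 0 b)]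
    linarith

/-- PROJ -/
theorem proj : DelProjStmt := fun l K h1 h2 h3 a w₁ w₂ ha =>
  del_proj l K ⟨h1, h2, h3⟩ a w₁ w₂ ha

/-- subadditivity -/
theorem defect_nonneg {K : Set E} (hK : CC K) (w₁ w₂ : E) : 0 ≤ defect K w₁ w₂ := by
  set Q := segVol (K + segment ℝ (0 : E) w₂) w₁ - segVol K w₁ with hQ
  have key : ∀ ε : ℝ, 0 < ε → -(defect K w₁ w₂) ≤ ε * Q := by
    intro ε hε
    have e1 := segVol_smul hK.cpt hK.cvx hε.le w₁
    have e2 := segVol_smul hK.cpt hK.cvx hε.le (w₁ + w₂)
    have e3 := segVol_smul (hK.add (ε • w₁)).cpt (hK.add (ε • w₁)).cvx hε.le w₂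
    have e4 := segVol_smul (hK.add w₂).cpt (hK.add w₂).cvx hε.le w₁
    have hmono : (volume (K + segment ℝ (0 : E) (ε • (w₁ + w₂)))).toReal ≤
        (volume (K + segment ℝ (0 : E) (ε • w₁) + segment ℝ (0 : E) (ε • w₂))).toReal := by
      refine ENNReal.toReal_mono ((hK.add _).add _).cpt.measure_lt_top.ne (measure_mono ?_)
      rintro _ ⟨x, hx, z, hz, rfl⟩
      obtain ⟨t, h0, h1, rfl⟩ := mem_segment_smul hε.le hz
      refine ⟨x + t • w₁, ⟨x, hx, t • w₁, smul_mem_segment h0 h1 _, rfl⟩, t • w₂,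
        smul_mem_segment h0 h1 _, ?_⟩
      simp only [smul_add]
      abel
    rw [segVol] at e1 e2 e3 e4
    have e5 : segVol (K + segment ℝ (0 : E) (ε • w₁)) w₂ =
        (volume (K + segment ℝ (0 : E) w₂ + segment ℝ (0 : E) (ε • w₁))).toReal -
          (volume (K + segment ℝ (0 : E) (ε • w₁))).toReal := by
      rw [segVol, add_right_comm]
    have e6 : segVol K w₂ = (volume (K + segment ℝ (0 : E) w₂)).toReal - (volume K).toReal := rfl
    rw [e5] at e3
    have h1 : ε * segVol K (w₁ + w₂) ≤ ε * (segVol K w₁ + segVol K w₂ + ε * Q) := by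
      rw [hQ]
      have : (volume (K + segment ℝ (0 : E) w₂ + segment ℝ (0 : E) (ε • w₁))).toReal =
          (volume (K + segment ℝ (0 : E) w₂)).toReal + ε * segVol (K + segment ℝ (0 : E) w₂) w₁ := by
        linarith
      rw [this] at e3
      have h2 : (volume (K + segment ℝ (0 : E) (ε • w₁))).toReal =
          (volume K).toReal + ε * segVol K w₁ := by linarith
      have h3 : (volume (K + segment ℝ (0 : E) (ε • (w₁ + w₂)))).toReal =
          (volume K).toReal + ε * segVol K (w₁ + w₂) := by linarith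
      have h4 : (volume (K + segment ℝ (0 : E) w₂)).toReal = segVol K w₂ + (volume K).toReal := by
        linarith
      rw [h2, h4] at e3
      nlinarith
    have h2 := le_of_mul_le_mul_left h1 hε
    rw [defect]
    linarith
  by_contra h
  push Not at h
  have hQ0 : 0 < |Q| + 1 := by positivity
  have h1 := key (-(defect K w₁ w₂) / (2 * (|Q| + 1))) (by
    apply div_pos (by linarith) (by positivity))
  have h2 : -(defect K w₁ w₂) / (2 * (|Q| + 1)) * Q ≤
      -(defect K w₁ w₂) / (2 * (|Q| + 1)) * (|Q| + 1) := by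
    apply mul_le_mul_of_nonneg_left _ (div_nonneg (by linarith) (by positivity))
    linarith [le_abs_self Q]
  have h3 : -(defect K w₁ w₂) / (2 * (|Q| + 1)) * (|Q| + 1) = -(defect K w₁ w₂) / 2 := by
    field_simp
  linarith

omit [FiniteDimensional ℝ E] [MeasurableSpace E] [BorelSpace E] in
theorem add_segment_zero (K : Set E) : K + segment ℝ (0 : E) 0 = K := by
  rw [segment_same, Set.add_singleton]
  simp

theorem del_zero_cons (l : List E) (K : Set E) (w₁ w₂ : E) : Del (0 :: l) K w₁ w₂ = 0 := by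
  simp only [Del]
  rw [add_segment_zero, sub_self]

end

theorem finrank_perp {E : Type} [NormedAddCommGroup E] [InnerProductSpace ℝ E]
    [FiniteDimensional ℝ E] {e : E} (he : ‖e‖ = 1) :
    finrank ℝ ((ℝ ∙ e)ᗮ : Submodule ℝ E) + 1 = finrank ℝ E := by
  have h1 : e ≠ 0 := by
    rintro rfl
    simp at he
  have h2 := Submodule.finrank_add_finrank_orthogonal (ℝ ∙ e)
  rw [finrank_span_singleton h1] at h2
  omega

theorem nonneg_aux (n : ℕ) : ∀ (E : Type) [NormedAddCommGroup E] [InnerProductSpace ℝ E]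
    [FiniteDimensional ℝ E] [MeasurableSpace E] [BorelSpace E] (l : List E), l.length = n →
    ∀ K : Set E, CC K → ∀ w₁ w₂ : E, 0 ≤ Del l K w₁ w₂ := by
  induction n with
  | zero =>
    intro E _ _ _ _ _ l hl K hK w₁ w₂
    rw [List.length_eq_zero_iff] at hl
    subst hl
    exact defect_nonneg hK w₁ w₂
  | succ n ih =>
    intro E _ _ _ _ _ l hl K hK w₁ w₂
    cases l with
    | nil => simp at hl
    | cons a l =>
      by_cases ha : a = 0
      · subst ha
        rw [del_zero_cons]
      · obtain ⟨e, he, hae⟩ := exists_unit a ha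
        rw [hae, del_hom hK e w₁ w₂ (norm_nonneg _)]
        refine mul_nonneg (norm_nonneg _) ?_
        have h1 := del_proj l K hK e w₁ w₂ he
        change 0 ≤ Del l (K + segment ℝ (0 : E) e) w₁ w₂ - Del l K w₁ w₂
        rw [h1]
        refine ih _ _ ?_ _ (hK.image _) _ _
        simpa using hl

/-- NONNEG -/
theorem nonneg : DelNonnegStmt := fun l K h1 h2 h3 w₁ w₂ =>
  nonneg_aux l.length _ l rfl K ⟨h1, h2, h3⟩ w₁ w₂

theorem zero_aux (n : ℕ) : ∀ (E : Type) [NormedAddCommGroup E] [InnerProductSpace ℝ E]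
    [FiniteDimensional ℝ E] [MeasurableSpace E] [BorelSpace E] (l : List E), l.length = n →
    finrank ℝ E ≤ n → ∀ K : Set E, CC K → ∀ w₁ w₂ : E, Del l K w₁ w₂ = 0 := by
  induction n with
  | zero =>
    intro E _ _ _ _ _ l hl hn K hK w₁ w₂
    rw [List.length_eq_zero_iff] at hl
    subst hl
    have h0 : finrank ℝ E = 0 := Nat.le_zero.mp hn
    have hs : Subsingleton E := finrank_zero_iff.mp h0
    have e1 : w₁ = 0 := Subsingleton.elim _ _
    have e2 : w₂ = 0 := Subsingleton.elim _ _
    subst e1 e2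
    simp [Del, defect, segVol_zero]
  | succ n ih =>
    intro E _ _ _ _ _ l hl hn K hK w₁ w₂
    cases l with
    | nil => simp at hl
    | cons a l =>
      by_cases ha : a = 0
      · subst ha
        rw [del_zero_cons]
      · obtain ⟨e, he, hae⟩ := exists_unit a ha
        rw [hae, del_hom hK e w₁ w₂ (norm_nonneg _)]
        have h1 := del_proj l K hK e w₁ w₂ he
        have h2 : Del (e :: l) K w₁ w₂ = 0 := by
          change Del l (K + segment ℝ (0 : E) e) w₁ w₂ - Del l K w₁ w₂ = 0
          rw [h1]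
          refine ih _ _ ?_ ?_ _ (hK.image _) _ _
          · simpa using hl
          · have := finrank_perp he
            omega
        rw [h2, mul_zero]

/-- ZERO -/
theorem zero : DelZeroStmt := fun l K h1 h2 h3 w₁ w₂ hl =>
  zero_aux l.length _ l rfl hl K ⟨h1, h2, h3⟩ w₁ w₂

/-- SUM -/
theorem sum : DelSumStmt := by
  intro E _ _ _ _ _ l
  induction l with
  | nil =>
    intro K h1 h2 h3 _ w₁ w₂ r hr
    simp [Del]
  | cons p l ih =>
    intro K h1 h2 h3 hp w₁ w₂ r hr
    have hK : CC K := ⟨h1, h2, h3⟩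
    have hrp : 0 ≤ r * p.1 := mul_nonneg hr (hp p (by simp))
    have hK' := hK.add ((r * p.1) • p.2)
    rw [List.map_cons, List.sum_cons, ← add_assoc, ih _ hK'.cpt hK'.cvx hK'.ne
      (fun q hq => hp q (by simp [hq])) w₁ w₂ r hr]
    have hperm : (((p :: l).sublists).map (fun s => r ^ s.length * (s.map Prod.fst).prod *
        Del (s.map Prod.snd) K w₁ w₂)).sum =
        (((p :: l).sublists').map (fun s => r ^ s.length * (s.map Prod.fst).prod *
        Del (s.map Prod.snd) K w₁ w₂)).sum :=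
      (List.Perm.map _ (List.sublists_perm_sublists' _)).sum_eq
    have hperm' : ((l.sublists).map (fun s => r ^ s.length * (s.map Prod.fst).prod *
        Del (s.map Prod.snd) (K + segment ℝ (0 : E) ((r * p.1) • p.2)) w₁ w₂)).sum =
        ((l.sublists').map (fun s => r ^ s.length * (s.map Prod.fst).prod *
        Del (s.map Prod.snd) (K + segment ℝ (0 : E) ((r * p.1) • p.2)) w₁ w₂)).sum :=
      (List.Perm.map _ (List.sublists_perm_sublists' _)).sum_eq
    rw [hperm, hperm', List.sublists'_cons, List.map_append, List.sum_append, List.map_map,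
      ← List.sum_map_add]
    congr 1
    apply List.map_congr_left
    intro s _
    have h4 := del_hom (l := s.map Prod.snd) hK p.2 w₁ w₂ hrp
    have h5 : Del (s.map Prod.snd) (K + segment ℝ (0 : E) ((r * p.1) • p.2)) w₁ w₂ =
        Del (s.map Prod.snd) K w₁ w₂ + r * p.1 * Del (p.2 :: s.map Prod.snd) K w₁ w₂ := by
      rw [← h4]
      simp only [Del]
      ring
    rw [h5]
    simp only [Function.comp_apply, List.length_cons, List.map_cons, List.prod_cons]
    ring

end Pool.Agent.Helper28_PB
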