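import Pool.Agent.Helper55_PB.Strict

/-!
# Orthogonal products of convex bodies: volume, and volume of the sum with a segment
-/

open MeasureTheory Module Set
open scoped RealInnerProductSpace Pointwise ENNReal

namespace Pool.Agent.Helper28_PB

open Pool.Agent.Helper55_PB

section Basic

variable {E : Type*} [NormedAddCommGroup E] [InnerProductSpace ℝ E] [FiniteDimensional ℝ E]

/-- The orthogonal product of `A ⊆ V` and `B ⊆ V^⊥`. -/
def prodSet (V : Submodule ℝ E) (A : Set V) (B : Set Vᗮ) : Set E :=
  {x | V.orthogonalProjectionOnto x ∈ A ∧ Vᗮ.orthogonalProjectionOnto x ∈ B}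

variable (V : Submodule ℝ E)

theorem pr_left (y : V) (z : Vᗮ) :
    V.orthogonalProjectionOnto ((y : E) + (z : E)) = y := by
  rw [map_add, Submodule.orthogonalProjectionOnto_mem_subspace_eq_self,
    Submodule.orthogonalProjectionOnto_apply_of_mem_orthogonal z.2, add_zero]

theorem pr_right (y : V) (z : Vᗮ) :
    Vᗮ.orthogonalProjectionOnto ((y : E) + (z : E)) = z := by
  rw [map_add, Submodule.orthogonalProjectionOnto_mem_subspace_eq_self,
    Submodule.orthogonalProjectionOnto_orthogonal_apply_eq_zero y.2, zero_add]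

theorem pr_add (x : E) : ((V.orthogonalProjectionOnto x : V) : E) +
    ((Vᗮ.orthogonalProjectionOnto x : Vᗮ) : E) = x := by
  have h := Submodule.starProjection_orthogonal_val (K := V) x
  simp only [Submodule.starProjection_apply] at h
  rw [h]
  abel

theorem prodSet_eq_image (A : Set V) (B : Set Vᗮ) :
    prodSet V A B = (fun p : V × Vᗮ => (p.1 : E) + (p.2 : E)) '' (A ×ˢ B) := by
  ext x
  constructor
  · rintro ⟨h1, h2⟩
    exact ⟨(_, _), ⟨h1, h2⟩, pr_add V x⟩
  · rintro ⟨⟨y, z⟩, ⟨h1, h2⟩, rfl⟩
    refine ⟨?_, ?_⟩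
    · simpa [pr_left V y z] using h1
    · simpa [pr_right V y z] using h2

theorem isCompact_prodSet {A : Set V} {B : Set Vᗮ} (hA : IsCompact A) (hB : IsCompact B) :
    IsCompact (prodSet V A B) := by
  rw [prodSet_eq_image]
  refine (hA.prod hB).image ?_
  fun_prop

omit [FiniteDimensional ℝ E] in
theorem convex_prodSet [FiniteDimensional ℝ E] {A : Set V} {B : Set Vᗮ} (hA : Convex ℝ A)
    (hB : Convex ℝ B) : Convex ℝ (prodSet V A B) := by
  intro x hx y hy s t hs ht hst
  refine ⟨?_, ?_⟩
  · rw [map_add, map_smul, map_smul]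
    exact hA hx.1 hy.1 hs ht hst
  · rw [map_add, map_smul, map_smul]
    exact hB hx.2 hy.2 hs ht hst

/-- upper inclusion -/
theorem add_segment_subset (A : Set V) (B : Set Vᗮ) (a : V) (b : Vᗮ) {e : ℝ} (he : 0 ≤ e) :
    prodSet V A B + segment ℝ (0 : E) (e • ((a : E) + (b : E))) ⊆
      prodSet V (A + segment ℝ (0 : V) (e • a)) (B + segment ℝ (0 : Vᗮ) (e • b)) := by
  rintro _ ⟨x, hx, z, hz, rfl⟩
  obtain ⟨t, h0, h1, rfl⟩ := mem_segment_smul he hz
  refine ⟨?_, ?_⟩
  · simp only [map_add, map_smul]
    refine ⟨_, hx.1, t • a, smul_mem_segment h0 h1 a, ?_⟩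
    have := pr_left V a b
    rw [map_add] at this
    rw [this]
  · simp only [map_add, map_smul]
    refine ⟨_, hx.2, t • b, smul_mem_segment h0 h1 b, ?_⟩
    have := pr_right V a b
    rw [map_add] at this
    rw [this]

/-- points of `B` which stay in `B` when moved back by `c` -/
def back {F : Type*} [AddCommGroup F] (B : Set F) (c : F) : Set F := {z | z ∈ B ∧ z - c ∈ B}

theorem back_mem {F : Type*} [AddCommGroup F] [Module ℝ F] {B : Set F} (hB : Convex ℝ B) {c z : F}
    {e t : ℝ} (hz : z ∈ back B (e • c)) (h0 : 0 ≤ t) (h1 : t ≤ e) : z - t • c ∈ B := by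
  rcases eq_or_lt_of_le (h0.trans h1) with h | h
  · have : t = 0 := by linarith
    subst this
    simpa using hz.1
  · have h2 : z - t • c = (1 - t / e) • z + (t / e) • (z - e • c) := by
      rw [smul_sub, smul_smul, div_mul_cancel₀ _ h.ne', sub_smul, one_smul]
      abel
    rw [h2]
    refine hB hz.1 hz.2 ?_ (by positivity) (by ring)
    rw [sub_nonneg, div_le_one h]
    exact h1

theorem lower_left (A : Set V) {B : Set Vᗮ} (hB : Convex ℝ B) (a : V) (b : Vᗮ) {e : ℝ}
    (he : 0 ≤ e) : prodSet V (A + segment ℝ (0 : V) (e • a)) (back B (e • b)) ⊆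
      prodSet V A B + segment ℝ (0 : E) (e • ((a : E) + (b : E))) := by
  rintro x ⟨⟨y, hy, z, hz, hyz⟩, hx2⟩
  obtain ⟨t, h0, h1, rfl⟩ := mem_segment_smul he hz
  refine ⟨x - t • ((a : E) + (b : E)), ⟨?_, ?_⟩, t • ((a : E) + (b : E)),
    smul_mem_segment h0 h1 _, by simp⟩
  · rw [map_sub, map_smul, pr_left, ← hyz]
    simpa using hy
  · rw [map_sub, map_smul, pr_right]
    exact back_mem hB hx2 h0 h1

theorem lower_right {A : Set V} (hA : Convex ℝ A) (B : Set Vᗮ) (a : V) (b : Vᗮ) {e : ℝ}
    (he : 0 ≤ e) : prodSet V (back A (e • a)) (B + segment ℝ (0 : Vᗮ) (e • b)) ⊆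
      prodSet V A B + segment ℝ (0 : E) (e • ((a : E) + (b : E))) := by
  rintro x ⟨hx1, ⟨y, hy, z, hz, hyz⟩⟩
  obtain ⟨t, h0, h1, rfl⟩ := mem_segment_smul he hz
  refine ⟨x - t • ((a : E) + (b : E)), ⟨?_, ?_⟩, t • ((a : E) + (b : E)),
    smul_mem_segment h0 h1 _, by simp⟩
  · rw [map_sub, map_smul, pr_left]
    exact back_mem hA hx1 h0 h1
  · rw [map_sub, map_smul, pr_right, ← hyz]
    simpa using hy

end Basic

section Volume

variable {E : Type*} [NormedAddCommGroup E] [InnerProductSpace ℝ E] [FiniteDimensional ℝ E]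
  [MeasurableSpace E] [BorelSpace E] (V : Submodule ℝ E)

theorem measurePreserving_pr : MeasurePreserving
    (fun x : E => (V.orthogonalProjectionOnto x, Vᗮ.orthogonalProjectionOnto x))
    volume (volume : Measure (V × Vᗮ)) := by
  have h1 : MeasurePreserving (V.orthogonalDecomposition) :=
    LinearIsometryEquiv.measurePreserving _
  have h := (WithLp.volume_preserving_ofLp V Vᗮ).comp h1
  have h2 : (fun x : E => (V.orthogonalProjectionOnto x, Vᗮ.orthogonalProjectionOnto x)) =
      (@WithLp.ofLp 2 (V × Vᗮ)) ∘ V.orthogonalDecomposition := by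
    funext x
    simp [Submodule.orthogonalDecomposition_apply]
  rw [h2]
  exact h

/-- The volume of an orthogonal product. -/
theorem volume_prodSet {A : Set V} {B : Set Vᗮ} (hA : MeasurableSet A) (hB : MeasurableSet B) :
    volume (prodSet V A B) = volume A * volume B := by
  have h2 := (measurePreserving_pr V).measure_preimage (hA.prod hB).nullMeasurableSet
  rw [Measure.volume_eq_prod, Measure.prod_prod] at h2
  rw [← h2]
  rfl

theorem real_prodSet {A : Set V} {B : Set Vᗮ} (hA : MeasurableSet A) (hB : MeasurableSet B) :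
    (volume (prodSet V A B)).toReal = (volume A).toReal * (volume B).toReal := by
  rw [volume_prodSet V hA hB, ENNReal.toReal_mul]

theorem real_add_segment {K : Set E} (hK : IsCompact K) (hc : Convex ℝ K) {e : ℝ} (he : 0 ≤ e)
    (w : E) : (volume (K + segment ℝ (0 : E) (e • w))).toReal =
      (volume K).toReal + e * segVol K w := by
  have h := segVol_smul hK hc he w
  rw [segVol] at h
  linarith

theorem isCompact_seg (w : E) : IsCompact (segment ℝ (0 : E) w) := by
  rw [segment_eq_image]
  exact isCompact_Icc.image (by fun_prop)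

theorem isCompact_back {B : Set E} (hB : IsCompact B) (c : E) : IsCompact (back B c) := by
  have h1 : back B c = B ∩ (fun z => z - c) ⁻¹' B := rfl
  rw [h1]
  exact hB.inter_right (hB.isClosed.preimage (by fun_prop))

theorem back_subset (B : Set E) (c : E) : back B c ⊆ B := fun _ hz => hz.1

theorem subset_add_segment (K : Set E) (w : E) : K ⊆ K + segment ℝ (0 : E) w := fun x hx =>
  ⟨x, hx, 0, left_mem_segment ℝ _ _, by simp⟩

theorem segVol_nonneg {K : Set E} (hK : IsCompact K) (w : E) : 0 ≤ segVol K w := by
  rw [segVol, sub_nonneg]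
  refine ENNReal.toReal_mono ?_ (measure_mono (subset_add_segment K w))
  exact (hK.add (isCompact_seg w)).measure_lt_top.ne

/-- the volume of `back` -/
theorem back_volume {B : Set E} (hB : IsCompact B) (hc : Convex ℝ B) {e : ℝ} (he : 0 ≤ e)
    (b : E) : (volume B).toReal - e * segVol B b ≤ (volume (back B (e • b))).toReal ∧
      (volume (back B (e • b))).toReal ≤ (volume B).toReal := by
  have hfin : volume B ≠ ∞ := hB.measure_lt_top.ne
  refine ⟨?_, ENNReal.toReal_mono hfin (measure_mono (back_subset B _))⟩
  set T : Set E := (fun z => z - e • b) ⁻¹' B with hT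
  have hTm : MeasurableSet T := by
    refine (hB.isClosed.preimage ?_).measurableSet
    fun_prop
  have hTv : volume T = volume B := by
    have := measure_preimage_add_right (volume : Measure E) (-(e • b)) B
    simpa only [hT, sub_eq_add_neg] using this
  have h1 : B ∩ T = back B (e • b) := rfl
  have h2 : (volume (B ∪ T)).toReal + (volume (B ∩ T)).toReal =
      (volume B).toReal + (volume T).toReal :=
    measureReal_union_add_inter hTm hfin (by rw [hTv]; exact hfin)
  have h3 : B ∪ T ⊆ B + segment ℝ (0 : E) (e • b) := by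
    rintro z (hz | hz)
    · exact subset_add_segment B _ hz
    · exact ⟨z - e • b, hz, e • b, right_mem_segment ℝ _ _, by simp⟩
  have h4 : (volume (B ∪ T)).toReal ≤ (volume B).toReal + e * segVol B b := by
    rw [← real_add_segment hB hc he b]
    exact ENNReal.toReal_mono (hB.add (isCompact_seg _)).measure_lt_top.ne (measure_mono h3)
  rw [hTv] at h2
  rw [h1] at h2
  linarith

/-- The volume of the sum of an orthogonal product with a segment, to first order. -/
theorem segVol_prodSet {A : Set V} {B : Set Vᗮ} (hA : IsCompact A) (hAc : Convex ℝ A)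
    (hB : IsCompact B) (hBc : Convex ℝ B) (a : V) (b : Vᗮ) :
    segVol (prodSet V A B) ((a : E) + (b : E)) =
      segVol A a * (volume B).toReal + (volume A).toReal * segVol B b := by
  have hK := isCompact_prodSet V hA hB
  have hKc := convex_prodSet V hAc hBc
  have hKv := real_prodSet V hA.measurableSet hB.measurableSet
  set α := segVol A a with hα
  set β := segVol B b with hβ
  set σ := segVol (prodSet V A B) ((a : E) + (b : E)) with hσ
  set x := (volume A).toReal with hx
  set y := (volume B).toReal with hy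
  have hα0 : 0 ≤ α := segVol_nonneg hA a
  have hβ0 : 0 ≤ β := segVol_nonneg hB b
  have hx0 : 0 ≤ x := ENNReal.toReal_nonneg
  have hy0 : 0 ≤ y := ENNReal.toReal_nonneg
  have key : ∀ e : ℝ, 0 < e → |σ - (α * y + x * β)| ≤ e * (3 * (α * β)) := by
    intro e he
    have hA1 : IsCompact (A + segment ℝ (0 : V) (e • a)) := hA.add (isCompact_seg _)
    have hB1 : IsCompact (B + segment ℝ (0 : Vᗮ) (e • b)) := hB.add (isCompact_seg _)
    have hA2 : IsCompact (back A (e • a)) := isCompact_back hA _
    have hB2 : IsCompact (back B (e • b)) := isCompact_back hB _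
    have eA := real_add_segment hA hAc he.le a
    have eB := real_add_segment hB hBc he.le b
    have eK := real_add_segment hK hKc he.le ((a : E) + (b : E))
    rw [hKv, ← hσ] at eK
    rw [← hα, ← hx] at eA
    rw [← hβ, ← hy] at eB
    have up : x * y + e * σ ≤ (x + e * α) * (y + e * β) := by
      rw [← eK, ← eA, ← eB, ← real_prodSet V hA1.measurableSet hB1.measurableSet]
      exact ENNReal.toReal_mono (isCompact_prodSet V hA1 hB1).measure_lt_top.ne
        (measure_mono (add_segment_subset V A B a b he.le))
    have hP1 := isCompact_prodSet V hA1 hB2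
    have hP2 := isCompact_prodSet V hA2 hB1
    have hun : (volume (prodSet V (A + segment ℝ (0 : V) (e • a)) (back B (e • b)) ∪
        prodSet V (back A (e • a)) (B + segment ℝ (0 : Vᗮ) (e • b)))).toReal ≤
        x * y + e * σ := by
      rw [← eK]
      exact ENNReal.toReal_mono (hK.add (isCompact_seg _)).measure_lt_top.ne
        (measure_mono (union_subset (lower_left V A hBc a b he.le)
          (lower_right V hAc B a b he.le)))
    have hin : prodSet V (A + segment ℝ (0 : V) (e • a)) (back B (e • b)) ∩
        prodSet V (back A (e • a)) (B + segment ℝ (0 : Vᗮ) (e • b)) ⊆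
        prodSet V (back A (e • a)) (back B (e • b)) := fun z hz => ⟨hz.2.1, hz.1.2⟩
    have hin' : (volume (prodSet V (A + segment ℝ (0 : V) (e • a)) (back B (e • b)) ∩
        prodSet V (back A (e • a)) (B + segment ℝ (0 : Vᗮ) (e • b)))).toReal ≤
        (volume (back A (e • a))).toReal * (volume (back B (e • b))).toReal := by
      rw [← real_prodSet V hA2.measurableSet hB2.measurableSet]
      exact ENNReal.toReal_mono (isCompact_prodSet V hA2 hB2).measure_lt_top.ne
        (measure_mono hin)
    have hsum : (volume (prodSet V (A + segment ℝ (0 : V) (e • a)) (back B (e • b)) ∪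
        prodSet V (back A (e • a)) (B + segment ℝ (0 : Vᗮ) (e • b)))).toReal +
        (volume (prodSet V (A + segment ℝ (0 : V) (e • a)) (back B (e • b)) ∩
        prodSet V (back A (e • a)) (B + segment ℝ (0 : Vᗮ) (e • b)))).toReal =
        (volume (prodSet V (A + segment ℝ (0 : V) (e • a)) (back B (e • b)))).toReal +
        (volume (prodSet V (back A (e • a)) (B + segment ℝ (0 : Vᗮ) (e • b)))).toReal :=
      measureReal_union_add_inter hP2.measurableSet hP1.measure_lt_top.ne
        hP2.measure_lt_top.ne
    rw [real_prodSet V hA1.measurableSet hB2.measurableSet,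
      real_prodSet V hA2.measurableSet hB1.measurableSet, eA, eB] at hsum
    obtain ⟨a1, a2⟩ := back_volume hA hAc he.le a
    obtain ⟨b1, b2⟩ := back_volume hB hBc he.le b
    rw [← hα, ← hx] at a1
    rw [← hβ, ← hy] at b1
    rw [← hx] at a2
    rw [← hy] at b2
    set p := (volume (back A (e • a))).toReal with hp
    set q := (volume (back B (e • b))).toReal with hq
    have h1 : 0 ≤ (p - (x - e * α)) * (q - (y - e * β)) :=
      mul_nonneg (by linarith) (by linarith)
    have h2 : 0 ≤ (x - p) * (q - (y - e * β)) := mul_nonneg (by linarith) (by linarith)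
    have h3 : 0 ≤ e * α * (q - (y - e * β)) :=
      mul_nonneg (by positivity) (by linarith)
    have h4 : 0 ≤ e * β * (p - (x - e * α)) :=
      mul_nonneg (by positivity) (by linarith)
    clear_value σ α β x y p q
    have id1 : (x + e * α) * q + p * (y + e * β) - p * q =
        x * y + e * (α * y + x * β) - 3 * (e * e * (α * β)) + (x - p) * (q - (y - e * β)) +
          e * α * (q - (y - e * β)) + 2 * (e * β * (p - (x - e * α))) := by ring
    have lo : x * y + e * (α * y + x * β) - 3 * (e * e * (α * β)) ≤ x * y + e * σ := by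
      linarith
    have id2 : (x + e * α) * (y + e * β) =
        x * y + e * (α * y + x * β) + e * e * (α * β) := by ring
    have h5 : 0 ≤ e * e * (α * β) := by positivity
    have id3 : e * (σ - (α * y + x * β)) = e * σ - e * (α * y + x * β) := by ring
    have id4 : e * (e * (3 * (α * β))) = 3 * (e * e * (α * β)) := by ring
    have id5 : e * (-(e * (3 * (α * β)))) = -(3 * (e * e * (α * β))) := by ring
    have e1 : e * (σ - (α * y + x * β)) ≤ e * (e * (3 * (α * β))) := by
      rw [id3, id4]
      linarith
    have e2 : e * (-(e * (3 * (α * β)))) ≤ e * (σ - (α * y + x * β)) := by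
      rw [id3, id5]
      linarith
    rw [abs_le]
    exact ⟨le_of_mul_le_mul_left e2 he, le_of_mul_le_mul_left e1 he⟩
  have h0 : |σ - (α * y + x * β)| ≤ 0 := by
    refine le_of_forall_pos_lt_add fun δ hδ => ?_
    have h1 : 0 < 3 * (α * β) + 1 := by positivity
    have h2 := key (δ / (3 * (α * β) + 1)) (by positivity)
    refine h2.trans_lt ?_
    rw [zero_add, div_mul_eq_mul_div, div_lt_iff₀ h1]
    nlinarith
  have h1 := abs_nonpos_iff.mp h0
  linarith

end Volume

end Pool.Agent.Helper28_PB
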